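import Mathlib
import Pool.Agent.R390.MZ.Alt

set_option autoImplicit false

/-!
# Three cases for the dimensions of the spaces of alternating multiple zeta values

By Deligne's theorem the ring `⨁ Z_w(2)` is the quotient of a weighted polynomial ring, with `F_(w+1)`
monomials of weight `w`, by a homogeneous prime ideal.  If this ideal is `0`, then
`dim Z_w(2) = F_(w+1)`.  If it is principal, then `dim Z_w(2) = F_(w+1) - F_(w+1-n)` for all `w`.  In
the remaining case this holds for all `w < m`, and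
`dim Z_w(2) ≤ F_(w+1) - F_(w+1-n) - F_(w+1-m) + F_(w+1-n-m)` for all `w`.  So the formula
`dim Z_w(2) = F_(w+1)`, if it holds for infinitely many `w`, holds for all `w`.
-/

open Pool.Agent.R390.MZ

namespace Pool.Agent.Results.MP_528be1_nt.HilbertTrichotomy

/-- Let `F_1 = F_2 = 1`, `F_(k+1) = F_k + F_(k-1)`, and `F_k = 0` for `k ≤ 0`. Assume Deligne's
theorem (`Gen AZ fb`). Then one of the following holds for the spaces `Z_w` of alternating multiple
zeta values of weight `w`.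
(i) `dim Z_w = F_(w+1)` for all `w`.
(ii) There is `n ≥ 2` with `dim Z_w = F_(w+1) - F_(w+1-n)` for all `w`.
(iii) There are `m ≥ n ≥ 2` with `dim Z_w = F_(w+1) - F_(w+1-n)` for all `w < m`, and
`dim Z_w ≤ F_(w+1) - F_(w+1-n)` and `dim Z_w ≤ F_(w+1) - F_(w+1-n) - F_(w+1-m) + F_(w+1-n-m)` for
all `w`. -/
theorem result (hD : Gen AZ fb) :
    (∀ w, Module.finrank ℚ (AZ w) = Nat.fib (w + 1)) ∨
    (∃ n, 2 ≤ n ∧ ∀ w, Module.finrank ℚ (AZ w) + Nat.fib (w + 1 - n) = Nat.fib (w + 1)) ∨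
    (∃ n m, 2 ≤ n ∧ n ≤ m ∧
      (∀ w < m, Module.finrank ℚ (AZ w) + Nat.fib (w + 1 - n) = Nat.fib (w + 1)) ∧
      ∀ w, Module.finrank ℚ (AZ w) + Nat.fib (w + 1 - n) ≤ Nat.fib (w + 1) ∧
        Module.finrank ℚ (AZ w) + Nat.fib (w + 1 - n) + Nat.fib (w + 1 - m) ≤
          Nat.fib (w + 1) + Nat.fib (w + 1 - (n + m))) :=
  tri_alt hD AZ_zero_ne_bot AZ_one_ne_bot

end Pool.Agent.Results.MP_528be1_nt.HilbertTrichotomy
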