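import Mathlib
import Pool.Agent.R390.MZ.RecAlt

set_option autoImplicit false

/-!
# Alternating multiple zeta values: the Fibonacci recurrence, or infinitely many new relations

Either `dim Z_(w+2)(2) = dim Z_(w+1)(2) + dim Z_w(2)` for all large `w`, or there are infinitely many
weights with a polynomial relation between the generators that is not a consequence of relations of
smaller weight.
-/

open Pool.Agent.R390.MZ MvPolynomial

namespace Pool.Agent.Results.MP_528be1_nt.RecurrenceOrNew

/-- `f` is a new relation of weight `k` between the numbers `x s`: a homogeneous polynomial of weight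
`k` that vanishes at `x` and is not in the ideal generated by the homogeneous polynomials of smaller
weight that vanish at `x` -/
def NewRelation {σ : Type} (wt : σ → ℕ) (x : σ → ℝ) (f : MvPolynomial σ ℚ) (k : ℕ) : Prop :=
  IsWeightedHomogeneous wt f k ∧ aeval x f = 0 ∧
    f ∉ Ideal.span {g : MvPolynomial σ ℚ | ∃ j < k, IsWeightedHomogeneous wt g j ∧ aeval x g = 0}

/-- Let `x_s` be numbers of weight `wt s` which generate the spaces `Z_w` of alternating multiple zeta
values with `F_(w+1)` monomials of weight `w` (they exist by Deligne's theorem). Then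
`dim Z_(w+2) = dim Z_(w+1) + dim Z_w` for all sufficiently large `w`, or there are new relations
between the `x_s` in infinitely many weights. -/
theorem result {σ : Type} (wt : σ → ℕ) (x : σ → ℝ) (hD : Gens AZ fb wt x) :
    (∃ w0, ∀ w, w0 ≤ w → Module.finrank ℚ (AZ (w + 2)) =
      Module.finrank ℚ (AZ (w + 1)) + Module.finrank ℚ (AZ w)) ∨
    ∀ N, ∃ k, N < k ∧ ∃ f, NewRelation wt x f k := by
  obtain ⟨hd, hZ⟩ := hD
  exact dichotomy_alt hd hZ

end Pool.Agent.Results.MP_528be1_nt.RecurrenceOrNew
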