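import Mathlib
import Pool.Agent.R390.MZ.Alt

set_option autoImplicit false

/-!
# The defect in the dimension formula for alternating multiple zeta values is supermodular

Let `δ_w = F_(w+1) - dim Z_w(2)`.  Then `δ_(k+i) + δ_(k+j) ≤ δ_(k+i+j) + δ_k` for all `k`, `i` and all
`j ≥ 2`.  For `k = 0`: the defect is superadditive.  For `(i, j) = (1, 2)`:
`dim Z_(k+3) ≤ dim Z_(k+2) + dim Z_(k+1) + δ_k`.
-/

open Pool.Agent.R390.MZ

namespace Pool.Agent.Results.MP_528be1_nt.SupermodularDefect

/-- the defect `δ_w = F_(w+1) - dim Z_w` in the conjecture for alternating multiple zeta values -/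
noncomputable def defect (w : ℕ) : ℤ := Nat.fib (w + 1) - Module.finrank ℚ (AZ w)

/-- Assume Deligne's theorem (`Gen AZ fb`). Then the defects satisfy
`δ_(k+i) + δ_(k+j) ≤ δ_(k+i+j) + δ_k` for all `k`, all `i` and all `j ≥ 2`. -/
theorem result (hD : Gen AZ fb) (i j : ℕ) (hj : 2 ≤ j) (k : ℕ) :
    defect (k + i) + defect (k + j) ≤ defect (k + i + j) + defect k := by
  obtain ⟨σ, wt, x, hd, hZ⟩ := hD
  have h := super_alt hd hZ AZ_one_ne_bot (i := i) hj k
  have hfin := finite_H hd
  have e : ∀ l, (Module.finrank ℚ (pt (H wt) (Ph wt x) l) : ℤ) = defect l := by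
    intro l
    have h1 := finrank_map_add (finrank_H hd) (MvPolynomial.aeval (R := ℚ) x).toLinearMap
      (P := Ph wt x) (k := l) (fun f hf => mem_Ph_of_mem_H hf)
    rw [← Z_eq hZ] at h1
    have h2 : (fb l : ℤ) = Nat.fib (l + 1) := rfl
    rw [defect, ← h2, ← h1]
    push_cast
    ring
  rw [← e, ← e, ← e, ← e]
  exact_mod_cast h

end Pool.Agent.Results.MP_528be1_nt.SupermodularDefect
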